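import Mathlib

/-!
# Random walks on digraphs
-/

namespace H697R2.RL

open Classical in
/-- The probability that the random walk started at `v` visits `t` at one of the times `0, …, k`.
From a vertex with out-neighbours the walk goes to a uniformly chosen out-neighbour, from a vertex
without out-neighbours it returns to `s`. -/
noncomputable def hit {V : Type} [Fintype V] (G : V → V → Prop) (s t : V) : ℕ → V → ℝ
  | 0, v => if v = t then 1 else 0
  | k + 1, v =>
      if v = t then 1
      else if Finset.univ.filter (G v) = ∅ then hit G s t k s
      else (∑ u ∈ Finset.univ.filter (G v), hit G s t k u) / (Finset.univ.filter (G v)).card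

end H697R2.RL
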