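import Pool.Agent.H697R2.RL.Walk

/-!
# Undirected switching networks in rounds on the promise instances of randomized logspace
-/

namespace H697R2.RL

open Finset Relation H534R2.SymSw H534R2.NotNet

variable {M m q : ℕ}

/-- **Lower bound for block digraphs.** -/
theorem block_bound {K r : ℕ} (hm : m = 2 ^ K) (hK : 1 ≤ K) (hmr : m ≤ r)
    (T : NTree (Vtx M m (r ^ 2)))
    (hsize : 4 * 3 ^ (K + 1) * T.load * m ^ (K - 1) < r ^ (K - 1))
    (hyes : ∀ k < M, ∀ (D : Fin M → Cuts m (r ^ 2)) (g : Fin m → Fin (r ^ 2)),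
      T.eval (YY D k g))
    (hno : ∀ (D : Fin M → Cuts m (r ^ 2)) (k : ℕ), ¬ T.eval (XX D k)) : M + 1 ≤ T.cost := by
  classical
  have key : ∀ k, k ≤ M → ∃ D : Fin M → Cuts m (r ^ 2), k ≤ T.rk (XX D k) := by
    intro k
    induction k with
    | zero => intro _; exact ⟨fun _ _ _ => true, Nat.zero_le _⟩
    | succ k ih =>
      intro hk
      obtain ⟨D, hD⟩ := ih (by omega)
      have hkM : k < M := hk
      set X := XX D k with hX
      have hmain := exists_cut hm hK hmr (T.zeros X) (fun g a b => X a b ∨ Pth k g a b)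
        (fun C a b => X a b ∨ Ct k C a b) (fun g a b h => cover_arc X g a b h)
        (lt_of_le_of_lt (Nat.mul_le_mul_right _
          (Nat.mul_le_mul_left _ (NTree.zeros_load T X))) hsize)
        (by
          intro g
          apply NTree.found T (fun a b h => Or.inl h)
          exact hyes k hkM D g)
      obtain ⟨N, hN, C, hC⟩ := hmain
      set D' : Fin M → Cuts m (r ^ 2) := Function.update D ⟨k, hkM⟩ C with hD'
      have hXX : (fun a b => X a b ∨ Ct k C a b) = XX D' (k + 1) := by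
        funext a b
        apply propext
        constructor
        · rintro (⟨j, hj, h⟩ | h)
          · refine ⟨j, by omega, ?_⟩
            have : j ≠ ⟨k, hkM⟩ := fun h' => by rw [h'] at hj; simp at hj
            rw [hD', Function.update_of_ne this]
            exact h
          · refine ⟨⟨k, hkM⟩, by simp, ?_⟩
            rw [hD', Function.update_self]
            exact h
        · rintro ⟨j, hj, h⟩
          by_cases hjk : j = ⟨k, hkM⟩
          · right
            rw [hD', hjk, Function.update_self] at h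
            exact h
          · left
            rw [hD', Function.update_of_ne hjk] at h
            refine ⟨j, ?_, h⟩
            have : j.val ≠ k := fun h' => hjk (Fin.ext h')
            omega
      refine ⟨D', ?_⟩
      have hlt : T.rk X < T.rk (XX D' (k + 1)) := by
        apply NTree.rk_lt T _ (hno D' (k + 1))
        · exact ⟨N, hN, by rw [← hXX]; exact hC⟩
        · intro a b h
          rw [← hXX]; exact Or.inl h
      omega
  obtain ⟨D, hD⟩ := key M le_rfl
  have := T.rk_lt_cost (XX D M)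
  omega

/-- **Lower bound, general vertex sets.** -/
theorem general_bound (K M : ℕ) (hK : 1 ≤ K) (V : Type) [Fintype V] (s t : V) (hst : s ≠ t)
    (hV : M * 2 ^ (5 * K) + 2 ≤ Fintype.card V) :
    ∃ H : V → V → Prop, {p : V × V | H p.1 p.2}.ncard ≤ M * 2 ^ (9 * K) ∧
      ∀ T : NTree V, 4 * 3 ^ (K + 1) * T.load < 2 ^ (K * (K - 1)) →
        (∀ G : V → V → Prop, (∀ a b, G a b → H a b) →
          (1 / 2 ≤ hit G s t (2 * (M * 2 ^ (5 * K))) s → T.eval G) ∧
          (¬ ReflTransGen G s t → ¬ T.eval G)) →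
        M + 1 ≤ T.cost := by
  obtain ⟨m, hm⟩ : ∃ m, m = 2 ^ K := ⟨_, rfl⟩
  obtain ⟨r, hr⟩ : ∃ r, r = 2 ^ (2 * K) := ⟨_, rfl⟩
  have hm1 : 1 ≤ m := by rw [hm]; exact Nat.one_le_two_pow
  have hmr : m ≤ r := by rw [hm, hr]; exact Nat.pow_le_pow_right (by norm_num) (by omega)
  have hr2 : 2 ≤ r := by
    rw [hr]
    calc 2 = 2 ^ 1 := rfl
      _ ≤ 2 ^ (2 * K) := Nat.pow_le_pow_right (by norm_num) (by omega)
  have hMm : M * m * r ^ 2 = M * 2 ^ (5 * K) := by
    rw [hm, hr, ← pow_mul, mul_assoc, ← pow_add]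
    congr 2
    ring
  have hcard : M * m * r ^ 2 + 2 ≤ Fintype.card V := by rw [hMm]; exact hV
  obtain ⟨f, hf, hfs, hft⟩ := exists_embedding (M := M) (m := m) (q := r ^ 2) hst hcard
  refine ⟨Relation.Map Host f f, ?_, ?_⟩
  · refine (host_card (by nlinarith) hm1 f).trans (le_of_eq ?_)
    rw [hm, hr, ← pow_mul, ← pow_mul, mul_assoc, ← pow_add]
    congr 2
    ring
  · intro T hload hT
    have hb := block_bound (M := M) (m := m) (r := r) hm hK hmr (T.pull f) (by
      rw [NTree.pull_load]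
      have hrm : r = 2 ^ K * m := by rw [hm, hr, ← pow_add]; congr 1; ring
      rw [hrm, mul_pow, ← pow_mul]
      exact Nat.mul_lt_mul_of_pos_right hload (pow_pos (by omega) _))
      (by
        intro k hk D g
        rw [NTree.pull_eval]
        apply (hT _ _).1
        · rw [← hfs, ← hft, hit_map f hf]
          exact half_le_hit hm1 hk hMm.le
        · rintro a b ⟨x, y, hxy, rfl, rfl⟩
          refine ⟨x, y, ?_, rfl, rfl⟩
          rcases hxy with h | h
          · exact XX_host h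
          · exact Pth_host h)
      (by
        intro D k
        rw [NTree.pull_eval]
        apply (hT _ _).2
        · rw [← hfs, ← hft, reach_map f hf]
          exact XX_no_path D k
        · rintro a b ⟨x, y, hxy, rfl, rfl⟩
          exact ⟨x, y, XX_host hxy, rfl, rfl⟩)
    rwa [NTree.pull_cost] at hb

/-- **Asymptotic form.** -/
theorem asymptotic_bound (c : ℕ) (V : Type) [Fintype V] (s t : V) (hst : s ≠ t) (T : NTree V)
    (hload : T.load ≤ Fintype.card V ^ c)
    (hT : ∀ G : V → V → Prop, (1 / 2 ≤ hit G s t (2 * Fintype.card V) s → T.eval G) ∧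
      (¬ ReflTransGen G s t → ¬ T.eval G)) :
    Fintype.card V ≤ 2 ^ ((5 * c + 26) * (Nat.sqrt (Nat.log 2 (Fintype.card V)) + 1)) * T.cost := by
  classical
  set n := Fintype.card V with hn
  have hn2 : 2 ≤ n := by
    rw [hn]
    exact Fintype.one_lt_card_iff.2 ⟨s, t, hst⟩
  set L := Nat.log 2 n with hL
  set σ := Nat.sqrt L with hσ
  have hσ2 : L < (σ + 1) * (σ + 1) := Nat.lt_succ_sqrt L
  have hnL : n < 2 ^ (L + 1) := Nat.lt_pow_succ_log_self (by norm_num) n
  obtain ⟨K, hK⟩ : ∃ K, K = (c + 5) * (σ + 1) := ⟨_, rfl⟩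
  have hK1 : 1 ≤ K := by rw [hK]; nlinarith
  obtain ⟨M, hM⟩ : ∃ M, M = (n - 2) / 2 ^ (5 * K) := ⟨_, rfl⟩
  have hpos : 0 < 2 ^ (5 * K) := by positivity
  have h1 : M * 2 ^ (5 * K) ≤ n - 2 := by rw [hM]; exact Nat.div_mul_le_self _ _
  have h2 : n - 2 < (M + 1) * 2 ^ (5 * K) := by
    rw [hM]
    have := Nat.lt_mul_div_succ (n - 2) hpos
    rw [mul_comm]; exact this
  obtain ⟨H, -, hH⟩ := general_bound K M hK1 V s t hst (by rw [← hn]; omega)
  have hcost := hH T (by
    have e1 : 4 * 3 ^ (K + 1) ≤ 2 ^ (2 * K + 4) := by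
      have : (3 : ℕ) ^ (K + 1) ≤ 4 ^ (K + 1) := Nat.pow_le_pow_left (by norm_num) _
      calc 4 * 3 ^ (K + 1) ≤ 4 * 4 ^ (K + 1) := by omega
        _ = 2 ^ (2 * K + 4) := by
          rw [show (4 : ℕ) = 2 ^ 2 from rfl, ← pow_mul, ← pow_add]; congr 1; ring
    have e2 : T.load ≤ 2 ^ ((L + 1) * c) := by
      calc T.load ≤ n ^ c := hload
        _ ≤ (2 ^ (L + 1)) ^ c := Nat.pow_le_pow_left hnL.le _
        _ = 2 ^ ((L + 1) * c) := by rw [← pow_mul]
    calc 4 * 3 ^ (K + 1) * T.load ≤ 2 ^ (2 * K + 4) * 2 ^ ((L + 1) * c) := Nat.mul_le_mul e1 e2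
      _ = 2 ^ (2 * K + 4 + (L + 1) * c) := by rw [← pow_add]
      _ < 2 ^ (K * (K - 1)) := by
        apply Nat.pow_lt_pow_right (by norm_num)
        obtain ⟨k, hk⟩ : ∃ k, K = k + 1 := ⟨K - 1, by omega⟩
        have hk' : K - 1 = k := by omega
        rw [hk']
        have e3 : (L + 1) * c ≤ (σ + 1) * (σ + 1) * c := Nat.mul_le_mul_right _ hσ2
        have e4 : K * K = (c + 5) * (c + 5) * ((σ + 1) * (σ + 1)) := by rw [hK]; ring
        have e5 : K ≤ (c + 5) * ((σ + 1) * (σ + 1)) := by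
          rw [hK]; exact Nat.mul_le_mul_left _ (Nat.le_mul_self _)
        have e6 : K * K = K * k + K := by rw [hk]; ring
        have e7 : 1 ≤ (σ + 1) * (σ + 1) := Nat.one_le_iff_ne_zero.2 (by positivity)
        nlinarith) (fun G _ => ⟨fun h => (hT G).1 (h.trans (hit_mono _ _ _ (by omega) _)),
          (hT G).2⟩)
  calc n ≤ (M + 1) * 2 ^ (5 * K) + 1 := by omega
    _ ≤ (M + 1) * 2 ^ (5 * K) + (M + 1) * 2 ^ (5 * K) := by
        have : 1 ≤ (M + 1) * 2 ^ (5 * K) := Nat.one_le_iff_ne_zero.2 (by positivity)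
        omega
    _ = 2 ^ (5 * K + 1) * (M + 1) := by rw [pow_succ]; ring
    _ ≤ 2 ^ ((5 * c + 26) * (σ + 1)) * T.cost := by
        apply Nat.mul_le_mul _ hcost
        apply Nat.pow_le_pow_right (by norm_num)
        rw [hK]
        nlinarith

/-- **Host version**, in rounds. -/
theorem rounds_host (K M : ℕ) (hK : 1 ≤ K) (V : Type) [Fintype V] (s t : V) (hst : s ≠ t)
    (hV : M * 2 ^ (5 * K) + 2 ≤ Fintype.card V) :
    ∃ H : V → V → Prop, {p : V × V | H p.1 p.2}.ncard ≤ M * 2 ^ (9 * K) ∧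
      ∀ (d : ℕ) (w : ℕ → ℕ) (N : ℕ → ℕ → (ℕ → ℕ → Prop) → MNet V),
        (∀ i k A A', (∀ j < i, ∀ k' < w j, (A j k' ↔ A' j k')) → N i k A = N i k A') →
        (∀ A, 4 * 3 ^ (K + 1) * ((∑ i ∈ Finset.range d, ∑ k ∈ Finset.range (w i), (N i k A).size)
          + (N d 0 A).size) < 2 ^ (K * (K - 1))) →
        (∀ G : V → V → Prop, (∀ a b, G a b → H a b) → ∃ A : ℕ → ℕ → Prop,
          (∀ i < d, ∀ k < w i, (A i k ↔ (N i k A).Accepts G)) ∧
          (1 / 2 ≤ hit G s t (2 * (M * 2 ^ (5 * K))) s → (N d 0 A).Accepts G) ∧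
          (¬ ReflTransGen G s t → ¬ (N d 0 A).Accepts G)) →
        M + 1 ≤ ∏ i ∈ Finset.range d, (w i + 1) := by
  obtain ⟨H, h1, h3⟩ := general_bound K M hK V s t hst hV
  refine ⟨H, h1, ?_⟩
  intro d w N hN hsize hdec
  have hpos : 0 < 4 * 3 ^ (K + 1) := by positivity
  have h0 : (flatTree d w N d (fun _ _ => True)).load ≤
      (2 ^ (K * (K - 1)) - 1) / (4 * 3 ^ (K + 1)) := by
    apply flat_load hN d le_rfl
    intro A' _
    rw [Nat.sub_self, ← Finset.range_eq_Ico, Nat.le_div_iff_mul_le hpos, mul_comm]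
    have := hsize A'
    omega
  have h4 := h3 (flatTree d w N d (fun _ _ => True)) (by
    have h5 := Nat.mul_le_mul_left (4 * 3 ^ (K + 1)) h0
    have h6 := Nat.mul_div_le (2 ^ (K * (K - 1)) - 1) (4 * 3 ^ (K + 1))
    have h7 := Nat.one_le_two_pow (n := K * (K - 1))
    omega) (by
    intro G hG
    obtain ⟨A, hA, hG'⟩ := hdec G hG
    rw [flat_eval hN G A hA d le_rfl _ (by rw [Nat.sub_self]; intro j hj; omega)]
    exact hG')
  have h5 := h4.trans (flat_cost d le_rfl _)
  rwa [Nat.sub_self, ← Finset.range_eq_Ico] at h5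

/-- **Asymptotic form**, in rounds. -/
theorem rounds_bound (c d : ℕ) (w : ℕ → ℕ) (V : Type) [Fintype V] (s t : V) (hst : s ≠ t)
    (N : ℕ → ℕ → (ℕ → ℕ → Prop) → MNet V)
    (hN : ∀ i k A A', (∀ j < i, ∀ k' < w j, (A j k' ↔ A' j k')) → N i k A = N i k A')
    (hsize : ∀ A, (∑ i ∈ Finset.range d, ∑ k ∈ Finset.range (w i), (N i k A).size)
      + (N d 0 A).size ≤ Fintype.card V ^ c)
    (hdec : ∀ G : V → V → Prop, ∃ A : ℕ → ℕ → Prop,
      (∀ i < d, ∀ k < w i, (A i k ↔ (N i k A).Accepts G)) ∧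
      (1 / 2 ≤ hit G s t (2 * Fintype.card V) s → (N d 0 A).Accepts G) ∧
      (¬ ReflTransGen G s t → ¬ (N d 0 A).Accepts G)) :
    Fintype.card V ≤ 2 ^ ((5 * c + 26) * (Nat.sqrt (Nat.log 2 (Fintype.card V)) + 1)) *
      ∏ i ∈ Finset.range d, (w i + 1) := by
  have h0 : (flatTree d w N d (fun _ _ => True)).load ≤ Fintype.card V ^ c := by
    apply flat_load hN d le_rfl
    intro A' _
    rw [Nat.sub_self, ← Finset.range_eq_Ico]
    exact hsize A'
  have h1 := asymptotic_bound c V s t hst (flatTree d w N d (fun _ _ => True)) h0 (by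
    intro G
    obtain ⟨A, hA, hG⟩ := hdec G
    rw [flat_eval hN G A hA d le_rfl _ (by rw [Nat.sub_self]; intro j hj; omega)]
    exact hG)
  refine h1.trans (Nat.mul_le_mul_left _ ?_)
  have h2 := flat_cost (N := N) (w := w) (d := d) d le_rfl (fun _ _ => True)
  rwa [Nat.sub_self, ← Finset.range_eq_Ico] at h2

end H697R2.RL
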