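import Pool.Agent.H697R2.RL.Defs
import Pool.Agent.H534R2.NotFlat

/-!
# Random walks on digraphs: the block digraphs
-/

namespace H697R2.RL

open Finset Relation H534R2.SymSw H534R2.NotNet

section basic

variable {V : Type} [Fintype V] (G : V → V → Prop) (s t : V)

theorem hit_t (k : ℕ) : hit G s t k t = 1 := by
  cases k <;> simp [hit]

theorem hit_nonneg (k : ℕ) : ∀ v, 0 ≤ hit G s t k v := by
  classical
  induction k with
  | zero => intro v; unfold hit; split_ifs <;> norm_num
  | succ k ih =>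
    intro v
    unfold hit
    split_ifs
    · norm_num
    · exact ih s
    · exact div_nonneg (Finset.sum_nonneg fun u _ => ih u) (Nat.cast_nonneg _)

theorem hit_le_one (k : ℕ) : ∀ v, hit G s t k v ≤ 1 := by
  classical
  induction k with
  | zero => intro v; unfold hit; split_ifs <;> norm_num
  | succ k ih =>
    intro v
    unfold hit
    split_ifs with h1 h2
    · exact le_rfl
    · exact ih s
    · have h3 : (0 : ℝ) < (univ.filter (G v)).card := by
        exact_mod_cast Finset.card_pos.2 (Finset.nonempty_iff_ne_empty.2 h2)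
      rw [div_le_one h3]
      calc (∑ u ∈ univ.filter (G v), hit G s t k u) ≤ ∑ _u ∈ univ.filter (G v), (1 : ℝ) :=
            Finset.sum_le_sum fun u _ => ih u
        _ = _ := by simp

theorem hit_succ (k : ℕ) : ∀ v, hit G s t k v ≤ hit G s t (k + 1) v := by
  classical
  induction k with
  | zero =>
    intro v
    have h0 := hit_nonneg G s t 1 v
    by_cases h : v = t
    · rw [h, hit_t, hit_t]
    · have : hit G s t 0 v = 0 := by unfold hit; rw [if_neg h]
      rw [this]; exact h0
  | succ k ih =>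
    intro v
    rw [hit, hit]
    split_ifs with h1 h2
    · exact le_rfl
    · exact ih s
    · exact div_le_div_of_nonneg_right (Finset.sum_le_sum fun u _ => ih u) (Nat.cast_nonneg _)

theorem hit_mono {k l : ℕ} (h : k ≤ l) (v : V) : hit G s t k v ≤ hit G s t l v := by
  induction h with
  | refl => exact le_rfl
  | step _ ih => exact ih.trans (hit_succ G s t _ v)

/-- an averaging lemma -/
theorem hit_ge_of_forall {k : ℕ} {v : V} {c : ℝ} (hv : v ≠ t) (h0 : c ≤ hit G s t k s)
    (h : ∀ u, G v u → c ≤ hit G s t k u) : c ≤ hit G s t (k + 1) v := by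
  classical
  rw [hit, if_neg hv]
  split_ifs with h2
  · exact h0
  · have h3 : (0 : ℝ) < (univ.filter (G v)).card := by
      exact_mod_cast Finset.card_pos.2 (Finset.nonempty_iff_ne_empty.2 h2)
    rw [le_div_iff₀ h3]
    calc c * (univ.filter (G v)).card = ∑ _u ∈ univ.filter (G v), c := by
          rw [Finset.sum_const, nsmul_eq_mul, mul_comm]
      _ ≤ _ := Finset.sum_le_sum fun u hu => h u (Finset.mem_filter.1 hu).2

/-- the same for vertices with an out-neighbour -/
theorem hit_ge_of_forall' {k : ℕ} {v : V} {c : ℝ} (hv : v ≠ t) (h0 : ∃ u, G v u)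
    (h : ∀ u, G v u → c ≤ hit G s t k u) : c ≤ hit G s t (k + 1) v := by
  classical
  obtain ⟨u0, hu0⟩ := h0
  have h2 : univ.filter (G v) ≠ ∅ := by
    rw [← Finset.nonempty_iff_ne_empty]
    exact ⟨u0, by simpa using hu0⟩
  rw [hit, if_neg hv, if_neg h2]
  have h3 : (0 : ℝ) < (univ.filter (G v)).card := by
    exact_mod_cast Finset.card_pos.2 (Finset.nonempty_iff_ne_empty.2 h2)
  rw [le_div_iff₀ h3]
  calc c * (univ.filter (G v)).card = ∑ _u ∈ univ.filter (G v), c := by
        rw [Finset.sum_const, nsmul_eq_mul, mul_comm]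
    _ ≤ _ := Finset.sum_le_sum fun u hu => h u (Finset.mem_filter.1 hu).2

/-- the walk only visits vertices reachable from `s` -/
theorem reach_of_hit_pos (k : ℕ) : ∀ v, ReflTransGen G s v → 0 < hit G s t k v →
    ReflTransGen G s t := by
  classical
  induction k with
  | zero =>
    intro v hv h
    by_cases hvt : v = t
    · rw [← hvt]; exact hv
    · rw [hit, if_neg hvt] at h; exact absurd h (lt_irrefl _)
  | succ k ih =>
    intro v hv h
    by_cases hvt : v = t
    · rw [← hvt]; exact hv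
    · rw [hit, if_neg hvt] at h
      split_ifs at h with h2
      · exact ih s ReflTransGen.refl h
      · by_contra hcon
        have h4 : ∀ u ∈ univ.filter (G v), hit G s t k u = 0 := by
          intro u hu
          by_contra h5
          have h6 : 0 < hit G s t k u := lt_of_le_of_ne (hit_nonneg G s t k u) (Ne.symm h5)
          exact hcon (ih u (hv.tail (Finset.mem_filter.1 hu).2) h6)
        rw [Finset.sum_eq_zero h4, zero_div] at h
        exact absurd h (lt_irrefl _)

end basic

open Classical in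
/-- the walk on an embedded digraph -/
theorem hit_map {W V : Type} [Fintype W] [Fintype V] (f : W → V) (hf : Function.Injective f)
    (G : W → W → Prop) (s t : W) (k : ℕ) :
    ∀ v, hit (Relation.Map G f f) (f s) (f t) k (f v) = hit G s t k v := by
  have hfil : ∀ (v : W) (inst : DecidablePred (Relation.Map G f f (f v))),
      @Finset.filter V (Relation.Map G f f (f v)) inst univ = (univ.filter (G v)).image f := by
    intro v inst
    ext y
    simp only [Finset.mem_filter, Finset.mem_univ, true_and, Finset.mem_image]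
    constructor
    · rintro ⟨a, b, hab, ha, hb⟩
      have := hf ha
      subst this
      exact ⟨b, hab, hb⟩
    · rintro ⟨b, hb, rfl⟩
      exact ⟨v, b, hb, rfl, rfl⟩
  induction k with
  | zero =>
    intro v
    rw [hit, hit]
    by_cases h : v = t
    · rw [if_pos h, if_pos (by rw [h])]
    · rw [if_neg h, if_neg (fun h' => h (hf h'))]
  | succ k ih =>
    intro v
    rw [hit, hit]
    by_cases h : v = t
    · rw [if_pos h, if_pos (by rw [h])]
    · rw [if_neg h, if_neg (fun h' => h (hf h'))]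
      rw [hfil v _]
      by_cases h2 : univ.filter (G v) = ∅
      · rw [if_pos h2, if_pos (by rw [h2]; simp), ih]
      · rw [if_neg h2, if_neg (by rw [Finset.image_eq_empty]; exact h2),
          Finset.card_image_of_injective _ hf, Finset.sum_image (fun a _ b _ hab => hf hab)]
        congr 1
        exact Finset.sum_congr rfl fun u _ => ih u

/-! ### the block digraphs -/

section block

variable {M m q : ℕ}

instance : Fintype (Vtx M m q) :=
  Fintype.ofEquiv (Unit ⊕ Unit ⊕ (Fin M × Fin m × Fin q))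
    { toFun := fun z => match z with
        | Sum.inl _ => Vtx.s
        | Sum.inr (Sum.inl _) => Vtx.t
        | Sum.inr (Sum.inr (i, x, u)) => Vtx.v i x u
      invFun := fun w => match w with
        | Vtx.s => Sum.inl ()
        | Vtx.t => Sum.inr (Sum.inl ())
        | Vtx.v i x u => Sum.inr (Sum.inr (i, x, u))
      left_inv := by rintro (_ | _ | ⟨i, x, u⟩) <;> rfl
      right_inv := by rintro (_ | _ | ⟨i, x, u⟩) <;> rfl }

/-- the cut digraphs in the first `k` blocks together with a path through block `k` -/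
def YY (D : Fin M → Cuts m q) (k : ℕ) (g : Fin m → Fin q) (a b : Vtx M m q) : Prop :=
  XX D k a b ∨ Pth k g a b

variable {D : Fin M → Cuts m q} {k : ℕ} {g : Fin m → Fin q}

theorem YY_block {i : Fin M} {x : Fin m} {u : Fin q} (hi : i.val < k) (hD : D i x u = true)
    {b : Vtx M m q} (h : YY D k g (Vtx.v i x u) b) :
    ∃ y w, b = Vtx.v i y w ∧ x.val + 1 = y.val ∧ D i y w = true := by
  rcases h with ⟨j, -, h⟩ | h
  · rcases b with _ | _ | ⟨i', y, w⟩
    · exact h.elim
    · have : i = j := Fin.ext h.1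
      subst this
      have h3 : D i x u = false := h.2.2
      rw [hD] at h3
      exact absurd h3 (by simp)
    · have : i = j := Fin.ext h.1
      subst this
      have h4 : i = i' := h.2.1
      subst h4
      have h3 : ¬ (D i x u = true ∧ D i y w = false) := h.2.2.2
      refine ⟨y, w, rfl, h.2.2.1, ?_⟩
      by_contra hne
      exact h3 ⟨hD, by simpa using hne⟩
  · rcases b with _ | _ | ⟨i', y, w⟩
    · exact h.elim
    · have : i.val = k := h.1
      omega
    · have : i.val = k := h.1
      omega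

theorem YY_path {i : Fin M} {x : Fin m} {u : Fin q} (hi : i.val = k)
    {b : Vtx M m q} (h : YY D k g (Vtx.v i x u) b) :
    (b = Vtx.t ∧ x.val + 1 = m) ∨ ∃ y, b = Vtx.v i y (g y) ∧ x.val + 1 = y.val := by
  rcases h with ⟨j, hj, h⟩ | h
  · rcases b with _ | _ | ⟨i', y, w⟩
    · exact h.elim
    · have : i.val = j.val := h.1
      omega
    · have : i.val = j.val := h.1
      omega
  · rcases b with _ | _ | ⟨i', y, w⟩
    · exact h.elim
    · exact Or.inl ⟨rfl, h.2.1⟩
    · obtain ⟨_, h2, h3, _, h5⟩ := h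
      subst h2; subst h5
      exact Or.inr ⟨y, rfl, h3⟩

theorem YY_s {b : Vtx M m q} (h : YY D k g Vtx.s b) :
    ∃ i x u, b = Vtx.v i x u ∧ x.val = 0 ∧ ((i.val < k ∧ D i x u = true) ∨
      (i.val = k ∧ u = g x)) := by
  rcases h with ⟨j, hj, h⟩ | h
  · rcases b with _ | _ | ⟨i, x, u⟩
    · exact h.elim
    · exact h.elim
    · obtain ⟨h1, h2, h3⟩ := h
      have : i = j := Fin.ext h1
      subst this
      exact ⟨i, x, u, rfl, h2, Or.inl ⟨hj, h3⟩⟩
  · rcases b with _ | _ | ⟨i, x, u⟩
    · exact h.elim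
    · exact h.elim
    · obtain ⟨h1, h2, h3⟩ := h
      exact ⟨i, x, u, rfl, h2, Or.inr ⟨h1, h3⟩⟩

/-- from the blocks the walk returns to `s` -/
theorem hit_block (K' : ℕ) (d : ℕ) : ∀ (i : Fin M) (x : Fin m) (u : Fin q), i.val < k →
    D i x u = true → m ≤ x.val + d →
    hit (YY D k g) Vtx.s Vtx.t K' Vtx.s ≤ hit (YY D k g) Vtx.s Vtx.t (K' + d) (Vtx.v i x u) := by
  induction d with
  | zero =>
    intro i x u _ _ hx
    have := x.2
    omega
  | succ d ih =>
    intro i x u hi hD hx
    rw [← add_assoc]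
    apply hit_ge_of_forall _ _ _ (by simp)
    · exact hit_mono _ _ _ (by omega) _
    · intro b hb
      obtain ⟨y, w, rfl, hy, hD'⟩ := YY_block hi hD hb
      exact ih i y w hi hD' (by omega)

/-- on the path the walk reaches `t` -/
theorem hit_path (K' : ℕ) (d : ℕ) : ∀ (i : Fin M) (x : Fin m), i.val = k → m ≤ x.val + d →
    1 ≤ hit (YY D k g) Vtx.s Vtx.t (K' + d) (Vtx.v i x (g x)) := by
  induction d with
  | zero =>
    intro i x _ hx
    have := x.2
    omega
  | succ d ih =>
    intro i x hi hx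
    rw [← add_assoc]
    apply hit_ge_of_forall' _ _ _ (by simp)
    · by_cases hxm : x.val + 1 = m
      · exact ⟨Vtx.t, Or.inr ⟨hi, hxm, rfl⟩⟩
      · exact ⟨Vtx.v i ⟨x.val + 1, by have := x.2; omega⟩ (g _), Or.inr ⟨hi, rfl, rfl, rfl, rfl⟩⟩
    · intro b hb
      rcases YY_path hi hb with ⟨rfl, -⟩ | ⟨y, rfl, hy⟩
      · rw [hit_t]
      · exact ih i y hi (by omega)

theorem hit_round (hm : 0 < m) (hk : k < M) (K' : ℕ) :
    1 - hit (YY D k g) Vtx.s Vtx.t (K' + (m + 1)) Vtx.s ≤
      (1 - 1 / (M * q : ℝ)) * (1 - hit (YY D k g) Vtx.s Vtx.t K' Vtx.s) := by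
  classical
  set a := hit (YY D k g) Vtx.s Vtx.t K' Vtx.s with ha
  have ha1 : a ≤ 1 := hit_le_one _ _ _ _ _
  set S := univ.filter (YY D k g Vtx.s) with hS
  set p : Vtx M m q := Vtx.v ⟨k, hk⟩ ⟨0, hm⟩ (g ⟨0, hm⟩) with hp
  have hpS : p ∈ S := by
    rw [hS, Finset.mem_filter]
    exact ⟨Finset.mem_univ _, Or.inr ⟨rfl, rfl, rfl⟩⟩
  have hSne : S ≠ ∅ := Finset.nonempty_iff_ne_empty.1 ⟨p, hpS⟩
  have hcard : S.card ≤ M * q := by
    have h1 : S ⊆ (univ : Finset (Fin M × Fin q)).image
        (fun z => (Vtx.v z.1 ⟨0, hm⟩ z.2 : Vtx M m q)) := by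
      intro b hb
      rw [hS, Finset.mem_filter] at hb
      obtain ⟨i, x, u, rfl, hx, -⟩ := YY_s hb.2
      rw [Finset.mem_image]
      refine ⟨(i, u), Finset.mem_univ _, ?_⟩
      have : x = ⟨0, hm⟩ := Fin.ext hx
      rw [this]
    calc S.card ≤ _ := Finset.card_le_card h1
      _ ≤ (univ : Finset (Fin M × Fin q)).card := Finset.card_image_le
      _ = M * q := by rw [Finset.card_univ, Fintype.card_prod, Fintype.card_fin, Fintype.card_fin]
  have hc0 : (0 : ℝ) < S.card := by
    exact_mod_cast Finset.card_pos.2 (Finset.nonempty_iff_ne_empty.2 hSne)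
  have hc1 : (S.card : ℝ) ≤ (M * q : ℝ) := by exact_mod_cast hcard
  have hval : hit (YY D k g) Vtx.s Vtx.t (K' + (m + 1)) Vtx.s
      = (∑ u ∈ S, hit (YY D k g) Vtx.s Vtx.t (K' + m) u) / S.card := by
    rw [← add_assoc, hit, if_neg (by simp), if_neg hSne]
  have hsum : 1 + ((S.card : ℝ) - 1) * a ≤ ∑ u ∈ S, hit (YY D k g) Vtx.s Vtx.t (K' + m) u := by
    rw [← Finset.add_sum_erase _ _ hpS]
    have h1 : 1 ≤ hit (YY D k g) Vtx.s Vtx.t (K' + m) p :=
      hit_path K' m ⟨k, hk⟩ ⟨0, hm⟩ rfl (by simp)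
    have h2 : ((S.card : ℝ) - 1) * a
        ≤ ∑ u ∈ S.erase p, hit (YY D k g) Vtx.s Vtx.t (K' + m) u := by
      have h3 : ((S.card : ℝ) - 1) * a = ∑ _u ∈ S.erase p, a := by
        rw [Finset.sum_const, Finset.card_erase_of_mem hpS, nsmul_eq_mul, Nat.cast_sub]
        · push_cast; ring
        · exact Finset.card_pos.2 ⟨p, hpS⟩
      rw [h3]
      apply Finset.sum_le_sum
      intro b hb
      have hb' := (Finset.mem_filter.1 (Finset.mem_of_mem_erase hb)).2
      obtain ⟨i, x, u, rfl, hx, h4 | ⟨h4, h5⟩⟩ := YY_s hb'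
      · exact hit_block K' m i x u h4.1 h4.2 (by omega)
      · subst h5
        exact ha1.trans (hit_path K' m i x h4 (by omega))
    linarith
  rw [hval]
  have h6 : (1 + ((S.card : ℝ) - 1) * a) / S.card
      ≤ (∑ u ∈ S, hit (YY D k g) Vtx.s Vtx.t (K' + m) u) / S.card :=
    div_le_div_of_nonneg_right hsum hc0.le
  have h7 : (1 + ((S.card : ℝ) - 1) * a) / S.card = a + (1 - a) / S.card := by
    field_simp
    ring
  have h8 : (1 - a) / (M * q : ℝ) ≤ (1 - a) / S.card :=
    div_le_div_of_nonneg_left (by linarith) hc0 hc1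
  have h9 : (1 - 1 / (M * q : ℝ)) * (1 - a) = 1 - a - (1 - a) / (M * q : ℝ) := by
    ring
  rw [h9]
  linarith

theorem hit_rounds (hm : 0 < m) (hk : k < M) (hq : 0 < q) (j : ℕ) :
    1 - hit (YY D k g) Vtx.s Vtx.t (j * (m + 1)) Vtx.s ≤ (1 - 1 / (M * q : ℝ)) ^ j := by
  have hMq : (1 : ℝ) ≤ M * q := by
    have : 1 ≤ M * q := Nat.one_le_iff_ne_zero.2 (Nat.mul_ne_zero (by omega) (by omega))
    exact_mod_cast this
  have h0 : 0 ≤ 1 - 1 / (M * q : ℝ) := by
    have : 1 / (M * q : ℝ) ≤ 1 := by
      rw [div_le_one (by linarith)]; exact hMq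
    linarith
  induction j with
  | zero =>
    have := hit_nonneg (YY D k g) Vtx.s Vtx.t (0 * (m + 1)) Vtx.s
    rw [pow_zero]
    linarith
  | succ j ih =>
    rw [Nat.succ_mul, pow_succ, mul_comm ((1 - 1 / (M * q : ℝ)) ^ j)]
    exact (hit_round hm hk _).trans (mul_le_mul_of_nonneg_left ih h0)

/-- **the random walk finds the path within `2 M m q` steps with probability at least `1/2`** -/
theorem half_le_hit (hm : 0 < m) (hk : k < M) {n : ℕ} (hn : M * m * q ≤ n) :
    1 / 2 ≤ hit (YY D k g) Vtx.s Vtx.t (2 * n) Vtx.s := by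
  have hq : 0 < q := lt_of_le_of_lt (Nat.zero_le _) (g ⟨0, hm⟩).2
  have h1 := hit_rounds (D := D) (g := g) hm hk hq (M * q)
  have h2 : (1 - 1 / (M * q : ℝ)) ^ (M * q) ≤ Real.exp (-1) := by
    have hMq : (0 : ℝ) < M * q := by
      have : 0 < M * q := Nat.mul_pos (by omega) hq
      exact_mod_cast this
    have hMq1 : (1 : ℝ) ≤ M * q := by
      have : 1 ≤ M * q := Nat.mul_pos (by omega) hq
      exact_mod_cast this
    have h3 : 1 - 1 / (M * q : ℝ) ≤ Real.exp (-(1 / (M * q : ℝ))) := by
      have := Real.add_one_le_exp (-(1 / (M * q : ℝ)))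
      linarith
    have h4 : 0 ≤ 1 - 1 / (M * q : ℝ) := by
      have : 1 / (M * q : ℝ) ≤ 1 := by
        rw [div_le_one (by linarith)]; exact hMq1
      linarith
    calc (1 - 1 / (M * q : ℝ)) ^ (M * q) ≤ (Real.exp (-(1 / (M * q : ℝ)))) ^ (M * q) :=
          pow_le_pow_left₀ h4 h3 _
      _ = Real.exp (-1) := by
          rw [← Real.exp_nat_mul]
          congr 1
          push_cast
          rw [mul_neg, mul_one_div_cancel hMq.ne']
  have h5 : Real.exp (-1) < 1 / 2 := by
    have := Real.exp_neg_one_lt_d9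
    norm_num at this ⊢
    linarith
  have h6 : hit (YY D k g) Vtx.s Vtx.t (M * q * (m + 1)) Vtx.s
      ≤ hit (YY D k g) Vtx.s Vtx.t (2 * n) Vtx.s := by
    apply hit_mono
    have h7 : M * q ≤ M * m * q := by
      calc M * q = M * 1 * q := by ring
        _ ≤ M * m * q := Nat.mul_le_mul_right _ (Nat.mul_le_mul_left _ hm)
    have h8 : M * q * (m + 1) = M * m * q + M * q := by ring
    omega
  linarith

end block

end H697R2.RL
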